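import Pool.Agent.helper59.FI4.SpecI
import Pool.Agent.helper70.FI4.SpecK

/-! Row fi4:KNR -/

set_option autoImplicit false

namespace Pool.Agent.FI4I

open Pool.Agent.helper58.DC Pool.Agent.DI Pool.Agent.GR Pool.Agent.OB Pool.Agent.DR Pool.Agent.FI Pool.Agent.FI3 Pool.Agent.FI4

theorem KNR (hKRA : KRA_stmt) (hLBN : LBN_stmt) : KNR_stmt := by
  intro p M hM G _ _ χ N
  rw [hKRA p M hM G χ N]
  refine finsum_congr fun y => finsum_congr fun _ => ?_
  rw [lb_eq_LL hLBN p M hM G (Cz N y) χ]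

end Pool.Agent.FI4I
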